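import Pool.Agent.Y8.EP.St

/-!
A priori bounds of the lower modes (job EP-UB): the trap for the energies of the active modes.
Reusable forms: `low_of`, `wbar`, `grow`, `el`, `t_UB`.
-/

open Set Filter Topology MeasureTheory

set_option autoImplicit false

namespace Pool.Agent.Y664.EP

open Pool.Agent.Y5.E (At Aw Ut Uw loc)
open Pool.Agent.Y5.F (vfk Yk Wk stay_le sqrt_gronA)
open Pool.Agent.Y8.EP
open Pool.Agent.Y8.EP.Gd

section seq

variable {κ lam N : ℝ} {L C ℓ : ℕ → ℝ} {B : ℕ → ℕ → ℝ}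

lemma dd_pos (lam : ℝ) : 0 < dd lam := Real.exp_pos _

/-- `E ^ k * dd` is tiny -/
lemma dd_small (q : Pe κ lam N L C ℓ B) (k : ℕ) (hk : k ≤ 100) :
    EE lam ^ k * dd lam ≤ 1 / 10 ^ 20 := by
  have hk' : (k : ℝ) ≤ 100 := by exact_mod_cast hk
  exact q.EE_small k (by linarith)

/-- constants and `N` times `dd` is tiny -/
lemma N_dd (q : Pe κ lam N L C ℓ B) : 10 ^ 20 * N * dd lam ≤ 1 / 10 ^ 20 := by
  have h1 := dd_small q 2 (by norm_num)
  have h2 := q.NE
  have h3 := q.EE_big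
  have h4 := EE_pos lam
  have h5 := dd_pos lam
  have h6 := q.N_one
  calc 10 ^ 20 * N * dd lam ≤ EE lam * EE lam * dd lam := by gcongr; linarith
    _ = EE lam ^ 2 * dd lam := by ring
    _ ≤ _ := h1

lemma dd_small1 (q : Pe κ lam N L C ℓ B) : 10 ^ 20 * dd lam ≤ 1 / 10 ^ 20 := by
  have h1 := N_dd q
  have h2 := q.N_one
  have h3 := dd_pos lam
  nlinarith

/-- the damping beats everything -/
lemma S_dd (q : Pe κ lam N L C ℓ B) : 10 ^ 20 * N ≤ Real.exp lam * dd lam := by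
  have h1 := q.NE
  have h2 := q.EE_big
  have h3 := EE_pos lam
  have h4 := q.N_one
  have h5 : EE lam ^ 2 * Real.exp (0 * lam) ≤ Real.exp (1 / 2 * lam) :=
    q.EE_exp 2 (by norm_num)
  have h6 : Real.exp lam * dd lam = Real.exp (1 / 2 * lam) := by
    rw [dd, ← Real.exp_add]; congr 1; ring
  rw [h6]
  rw [zero_mul, Real.exp_zero, mul_one] at h5
  refine le_trans ?_ h5
  calc 10 ^ 20 * N ≤ EE lam * EE lam := by gcongr; linarith
    _ = _ := by ring

lemma N_S (q : Pe κ lam N L C ℓ B) : N / Real.exp lam ≤ N * dd lam := by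
  rw [div_eq_mul_inv, ← Real.exp_neg]
  have := q.N_one
  have h : Real.exp (-lam) ≤ dd lam := by
    apply Real.exp_le_exp.2
    have := q.lamp
    linarith
  gcongr

/-- `L (m+1) / lam = L m` -/
lemma Ldiv (q : Pe κ lam N L C ℓ B) (m : ℕ) : L (m + 1) / lam = L m := by
  rw [q.L_succ m, mul_div_cancel_left₀ _ q.lamp.ne']

lemma Ldiv_le (q : Pe κ lam N L C ℓ B) (m : ℕ) : L m / lam ≤ 1 / 10 ^ 30 * L m := by
  have h1 := q.lam_big
  have h2 := q.Lp m
  rw [div_le_iff₀ q.lamp]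
  nlinarith

lemma Ldiv_pos (q : Pe κ lam N L C ℓ B) (m : ℕ) : 0 < L m / lam := div_pos (q.Lp m) q.lamp

end seq

section main

variable {κ lam N : ℝ} {L C ℓ : ℕ → ℝ} {B : ℕ → ℕ → ℝ} {T : ℝ} {x w f : ℕ → ℝ → ℝ}
variable {n : ℕ} {σ : ℕ → ℝ} {t1 : ℝ}

lemma σmono (h : Stg κ lam L T x w n σ) {i j : ℕ} (hij : i ≤ j) (hj : j ≤ n) : σ i ≤ σ j := by
  induction j with
  | zero => have : i = 0 := by omega
            rw [this]
  | succ j ih =>
    rcases hij.eq_or_lt with h1 | h1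
    · rw [h1]
    · exact (ih (by omega) (by omega)).trans (h.σlt j (by omega)).le

lemma σnn (h : Stg κ lam L T x w n σ) {i : ℕ} (hi : i ≤ n) : 0 ≤ σ i := by
  have := σmono h (Nat.zero_le i) hi
  rwa [h.σ0] at this

/-- the sums `U` of the lower groups -/
lemma U_of (q : Pe κ lam N L C ℓ B) (t : ℝ) : ∀ i : ℕ, (∀ j < i, |x j t| ≤ 3 / 2) →
    Ut L x i t ≤ 1501 / 1000 * (L i / lam) := by
  intro i
  induction i with
  | zero =>
    intro _
    have h := Ldiv_pos q 0
    rw [Ut, Finset.sum_range_zero]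
    positivity
  | succ i ih =>
    intro hx
    have h1 := ih fun j hj => hx j (by omega)
    have h2 := hx i (by omega)
    have h3 := Ldiv_le q i
    have h4 := q.Lp i
    have h5 : L i * |x i t| ≤ L i * (3 / 2) := by gcongr
    rw [U_succ, Ldiv q i]
    linarith

/-- the sums `Uw` of the lower groups -/
lemma Uw_of (q : Pe κ lam N L C ℓ B) (t : ℝ) : ∀ i : ℕ, (∀ j < i, w j t ≤ dd lam) →
    Uw L w i t ≤ 2 * dd lam * (L i / lam) := by
  intro i
  have hd := dd_pos lam
  induction i with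
  | zero =>
    intro _
    have h := Ldiv_pos q 0
    rw [Uw, Finset.sum_range_zero]
    positivity
  | succ i ih =>
    intro hx
    have h1 := ih fun j hj => hx j (by omega)
    have h2 := hx i (by omega)
    have h3 := Ldiv_le q i
    have h4 := q.Lp i
    have h5 : L i * w i t ≤ L i * dd lam := by gcongr
    have h6 : 2 * dd lam * (L i / lam) ≤ 2 * dd lam * (1 / 10 ^ 30 * L i) := by gcongr
    have h7 : 0 < dd lam * L i := by positivity
    rw [Uw_succ, Ldiv q i]
    nlinarith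

/-- the sums `A` of the lower groups -/
lemma A_of (q : Pe κ lam N L C ℓ B) (t : ℝ) : ∀ i : ℕ,
    (∀ j < i, |x j t| + w j t ≤ 15001 / 10000) → At lam x w i t ≤ 1501 / 1000 := by
  intro i
  have hs := q.sq_lam
  have hs0 := q.sq_lam0
  induction i with
  | zero =>
    intro _
    rw [At, Finset.sum_range_zero]
    norm_num
  | succ i ih =>
    intro hx
    have h1 := ih fun j hj => hx j (by omega)
    have h2 := hx i (by omega)
    rw [A_succ]
    have h3 : (√lam)⁻¹ * At lam x w i t ≤ 1 / 10 ^ 15 * (1501 / 1000) := by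
      calc (√lam)⁻¹ * At lam x w i t ≤ (√lam)⁻¹ * (1501 / 1000) := by gcongr
        _ ≤ _ := by gcongr
    linarith

/-- the sums `Aw` of the lower groups -/
lemma Aw_of (q : Pe κ lam N L C ℓ B) (t : ℝ) : ∀ i : ℕ, (∀ j < i, w j t ≤ dd lam) →
    Aw lam w i t ≤ 2 * dd lam := by
  intro i
  have hs := q.sq_lam
  have hs0 := q.sq_lam0
  have hd := dd_pos lam
  induction i with
  | zero =>
    intro _
    rw [Aw, Finset.sum_range_zero]
    positivity
  | succ i ih =>
    intro hx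
    have h1 := ih fun j hj => hx j (by omega)
    have h2 := hx i (by omega)
    rw [Aw_succ]
    have h3 : (√lam)⁻¹ * Aw lam w i t ≤ 1 / 10 ^ 15 * (2 * dd lam) := by
      calc (√lam)⁻¹ * Aw lam w i t ≤ (√lam)⁻¹ * (2 * dd lam) := by gcongr
        _ ≤ _ := by gcongr
    linarith

/-- bounds of the lower groups -/
lemma low_of (g : Gd κ lam N L C ℓ B T x w f) {i : ℕ} {t : ℝ} (ht : t ∈ Ico 0 T)
    (hx : ∀ j < i, |x j t| ≤ 3 / 2) (hw : ∀ j < i, w j t ≤ dd lam) : Low lam L x w i t := by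
  have q := g.q
  have hd := dd_pos lam
  have hds := dd_small1 q
  have hd1 : dd lam ≤ 1 / 10000 := by linarith
  have hz : ∀ j < i, |x j t| + w j t ≤ 15001 / 10000 := fun j hj => by
    have h1 := hx j hj
    have h2 := hw j hj
    linarith
  refine ⟨U_of q t i hx, Uw_of q t i hw, A_of q t i hz, Aw_of q t i hw, ?_, ?_, ?_⟩
  · rcases i with _ | m
    · have := Ldiv_pos q 0
      rw [loc, if_pos rfl]; positivity
    · have hm : ¬ (m + 1 = 0) := Nat.succ_ne_zero m
      rw [loc, if_neg hm, Nat.add_sub_cancel, Ldiv q m]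
      have hz1 := hz m (by omega)
      have hw1 := hw m (by omega)
      have hw0 := g.sy.w0 m t ht
      have hz2 := hz (m + 1 - 2) (by omega)
      have hw2 := hw (m + 1 - 2) (by omega)
      have hw0' := g.sy.w0 (m + 1 - 2) t ht
      have hLm := q.Lp m
      have hs1 : |x m t| + w m t + |x (m + 1 - 2) t| + w (m + 1 - 2) t ≤ 4 := by linarith
      have hs2 : w m t + w (m + 1 - 2) t ≤ 2 * dd lam := by linarith
      calc L m * ((|x m t| + w m t + |x (m + 1 - 2) t| + w (m + 1 - 2) t)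
              * (w m t + w (m + 1 - 2) t))
          ≤ L m * (4 * (2 * dd lam)) := by gcongr
        _ = 8 * (dd lam * L m) := by ring
        _ ≤ 20 * (dd lam * L m) := by gcongr; norm_num
        _ = _ := by ring
  · intro h0
    have := hz (i - 1) (by omega)
    linarith
  · intro h0
    exact hw (i - 1) (by omega)

/-- elapsed time -/
lemma el (g : Gd κ lam N L C ℓ B T x w f) (h : Stg κ lam L T x w n σ)
    (h1 : t1 ≤ σ n + 62 / 100 * lam / L n) :
    ∀ k i, i + k = n → t1 - σ i ≤ 6201 / 10000 * lam / L i := by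
  have hl := g.q.lamp
  have hlb := g.q.lam_big
  intro k
  induction k with
  | zero =>
    intro i hi
    have : i = n := by omega
    subst this
    have hG := g.q.Lp i
    have : 62 / 100 * lam / L i ≤ 6201 / 10000 * lam / L i := by
      refine div_le_div_of_nonneg_right ?_ hG.le
      linarith
    linarith
  | succ k ih =>
    intro i hi
    have h2 := ih (i + 1) (by omega)
    have h3 := h.dur i (by omega)
    have hG := g.q.Lp i
    have hG' := g.q.Lp (i + 1)
    have h4 := g.q.L_succ i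
    have h6 : 6201 / 10000 * lam / L (i + 1) ≤ 1 / 10000 * lam / L i := by
      rw [div_le_div_iff₀ hG' hG, h4]
      calc 6201 / 10000 * lam * L i = 6201 / 10000 * (lam * L i) := by ring
        _ ≤ (1 / 10000 * lam) * (lam * L i) := by gcongr; linarith
    have h8 : 62 / 100 * lam / L i + 1 / 10000 * lam / L i
        = 6201 / 10000 * lam / L i := by ring
    linarith

lemma el' (g : Gd κ lam N L C ℓ B T x w f) (h : Stg κ lam L T x w n σ)
    (h1 : t1 ≤ σ n + 62 / 100 * lam / L n) {i : ℕ} (hi : i ≤ n) :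
    (t1 - σ i) * L i ≤ 6201 / 10000 * lam := by
  have := el g h h1 (n - i) i (by omega)
  rwa [le_div_iff₀ (g.q.Lp i)] at this

/-- growth of a tail energy (index `m + 1`), with the damping -/
lemma grow (g : Gd κ lam N L C ℓ B T x w f) (m : ℕ) {α t q c η : ℝ} (h0 : 0 ≤ α) (hαt : α ≤ t)
    (ht : t < T) (hq : 0 ≤ q) (hc : 0 ≤ c) (hη : 0 ≤ η)
    (hUL : ∀ τ ∈ Ioo α t, Ut L x (m + 1) τ ≤ 10 ^ 6 * L (m + 1))
    (hU : ∀ τ ∈ Ioo α t, 10011 / 10000 * Ut L x (m + 1) τ + N * Uw L w (m + 1) τ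
      - 9 / 10 * (L (m + 1) / lam) ≤ q)
    (hx : ∀ τ ∈ Ioo α t, src L C x (m + 1) τ + N * loc L x w (m + 1) τ ≤ c)
    (ha : ∀ τ ∈ Ioo α t, addt lam N L x w (m + 1) τ ≤ 2 * c * η) :
    √(Yk κ x w (m + 1) t) ≤
      Real.exp (q * (t - α)) * (√(Yk κ x w (m + 1) α) + η + 2 * c * (t - α)) := by
  have hsub : Icc α t ⊆ Ico 0 T := fun τ hτ => ⟨h0.trans hτ.1, hτ.2.trans_lt ht⟩
  refine sqrt_gronA (Y := Yk κ x w (m + 1)) (D := deriv (Yk κ x w (m + 1))) hαt hq hc hη
    ((g.Ycont (m + 1)).mono hsub) (fun τ _ => g.Y_nonneg _ _)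
    (fun τ hτ => ?_) (fun τ hτ => ?_)
  · have hτ' : τ ∈ Ico 0 T := hsub ⟨hτ.1.le, hτ.2.le⟩
    obtain ⟨D, hD, _⟩ := g.dYu m hτ' (hUL τ hτ)
    have h2 := hD.hasDerivAt (Ico_mem_nhds (h0.trans_lt hτ.1) (hτ.2.trans ht))
    rw [h2.deriv]; exact h2
  · have hτ' : τ ∈ Ico 0 T := hsub ⟨hτ.1.le, hτ.2.le⟩
    obtain ⟨D, hD, hDle⟩ := g.dYu m hτ' (hUL τ hτ)
    have h2 := hD.hasDerivAt (Ico_mem_nhds (h0.trans_lt hτ.1) (hτ.2.trans ht))
    rw [h2.deriv]
    refine hDle.trans ?_
    have h3 := hU τ hτ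
    have h4 := hx τ hτ
    have h5 := g.Y_nonneg (m + 1) τ
    have h6 := ha τ hτ
    gcongr

/-- the force of the other modes -/
noncomputable def wfc (κ lam N : ℝ) (L : ℕ → ℝ) (x w : ℕ → ℝ → ℝ) (n : ℕ) (t : ℝ) : ℝ :=
  N * (L n * (At lam x w n t + √(Yk κ x w n t)) * √(Yk κ x w n t)
      + (if n = 0 then 0 else L (n - 1) * At lam x w n t * (|x (n - 1) t| + w (n - 1) t)))

/-- bound of the other modes by the damping -/
lemma wbar (g : Gd κ lam N L C ℓ B T x w f) (i : ℕ) {α t b : ℝ} (h0 : 0 ≤ α) (hαt : α ≤ t)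
    (ht : t < T) (hb : 0 ≤ b)
    (hs : ∀ τ ∈ Ioo α t, wfc κ lam N L x w i τ ≤ Real.exp lam * L i * b)
    (h : w i α ≤ b) : w i t ≤ b := by
  have hsub : Icc α t ⊆ Ico 0 T := fun τ hτ => ⟨h0.trans hτ.1, hτ.2.trans_lt ht⟩
  have h1 := stay_le (φ := fun τ => w i τ ^ 2) (φ' := fun τ => deriv (fun τ => w i τ ^ 2) τ)
    (K := b ^ 2) hαt ((g.wsq_cont i).mono hsub)
    (fun τ hτ => by
      obtain ⟨D, hD, _⟩ := g.sy.dw i τ (hsub ⟨hτ.1.le, hτ.2.le⟩)
      have h2 := hD.hasDerivAt (Ico_mem_nhds (h0.trans_lt hτ.1) (hτ.2.trans ht))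
      rw [h2.deriv]; exact h2)
    (fun τ hτ hlt => by
      obtain ⟨D, hD, hDle⟩ := g.sy.dw i τ (hsub ⟨hτ.1.le, hτ.2.le⟩)
      have h2 := hD.hasDerivAt (Ico_mem_nhds (h0.trans_lt hτ.1) (hτ.2.trans ht))
      rw [h2.deriv]
      have hw := g.sy.w0 i τ (hsub ⟨hτ.1.le, hτ.2.le⟩)
      have hbw : b < w i τ := lt_of_pow_lt_pow_left₀ 2 hw hlt
      have h3 := hs τ hτ
      unfold wfc at h3
      have hSL : 0 < Real.exp lam * L i := mul_pos (Real.exp_pos _) (g.q.Lp i)
      have h4 := mul_le_mul_of_nonneg_left h3 (by positivity : (0 : ℝ) ≤ 2 * w i τ)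
      have h5 : 0 ≤ (Real.exp lam * L i) * w i τ * (w i τ - b) := by
        have : 0 ≤ w i τ - b := by linarith
        positivity
      nlinarith)
    (by
      have hw := g.sy.w0 i α (hsub ⟨le_rfl, hαt⟩)
      gcongr)
  have hw := g.sy.w0 i t (hsub ⟨hαt, le_rfl⟩)
  exact le_of_pow_le_pow_left₀ (by norm_num) hb h1

/-- the force of the other modes is dominated by the damping -/
lemma wfc_le (g : Gd κ lam N L C ℓ B T x w f) {i : ℕ} {τ : ℝ} (hτ : τ ∈ Ico 0 T)
    (hL : Low lam L x w i τ) (hY : √(Yk κ x w i τ) ≤ 3 / 2) :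
    wfc κ lam N L x w i τ ≤ Real.exp lam * L i * dd lam := by
  have q := g.q
  have hN := q.N_one
  have hA := hL.A
  have hA0 := g.A_nonneg hτ i
  have hLi := q.Lp i
  have hSd := S_dd q
  have h2 : (if i = 0 then 0 else L (i - 1) * At lam x w i τ
      * (|x (i - 1) τ| + w (i - 1) τ)) ≤ L i * (1501 / 1000) * (1501 / 1000) := by
    split_ifs with h0
    · positivity
    · have hz := hL.z h0
      have hw0 := g.sy.w0 (i - 1) τ hτ
      have h7 := q.Lp (i - 1)
      have h8 := q.Lmono (show i - 1 ≤ i by omega)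
      gcongr
  unfold wfc
  calc N * (L i * (At lam x w i τ + √(Yk κ x w i τ)) * √(Yk κ x w i τ)
        + (if i = 0 then 0 else L (i - 1) * At lam x w i τ * (|x (i - 1) τ| + w (i - 1) τ)))
      ≤ N * (L i * (1501 / 1000 + 3 / 2) * (3 / 2) + L i * (1501 / 1000) * (1501 / 1000)) := by
        gcongr
    _ = ((1501 / 1000 + 3 / 2) * (3 / 2) + (1501 / 1000) * (1501 / 1000)) * N * L i := by ring
    _ ≤ 10 ^ 20 * N * L i := by gcongr; norm_num
    _ ≤ (Real.exp lam * dd lam) * L i := by gcongr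
    _ = _ := by ring

lemma exp374 {y : ℝ} (hy : y ≤ 374 / 1000) : Real.exp y ≤ 147 / 100 := by
  have h1 : Real.exp y ≤ Real.exp (374 / 1000) := Real.exp_le_exp.2 hy
  have h2 : (1 : ℝ) - 374 / 10000 ≤ Real.exp (-(374 / 10000)) := by
    have := Real.add_one_le_exp (-(374 / 10000) : ℝ); linarith
  have h3 : ((1 : ℝ) - 374 / 10000) ^ 10 ≤ Real.exp (-(374 / 10000)) ^ 10 := by
    gcongr
  have h4 : Real.exp (-(374 / 10000) : ℝ) ^ 10 = Real.exp (-(374 / 1000)) := by
    rw [← Real.exp_nat_mul]; congr 1; norm_num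
  rw [h4] at h3
  have h5 : Real.exp (374 / 1000) * Real.exp (-(374 / 1000)) = 1 := by rw [← Real.exp_add]; simp
  have h6 := Real.exp_pos (374 / 1000)
  have h7 : (100 : ℝ) / 147 ≤ (1 - 374 / 10000) ^ 10 := by norm_num
  have h8 : (100 : ℝ) / 147 ≤ Real.exp (-(374 / 1000)) := h7.trans h3
  nlinarith

/-- a priori bounds -/
lemma UB (g : Gd κ lam N L C ℓ B T x w f) (h : Stg κ lam L T x w n σ) (hT : t1 ≤ T)
    (h1 : t1 ≤ σ n + 62 / 100 * lam / L n) : ∀ i ≤ n,
    ∀ t ∈ Ico (σ i) t1, Low lam L x w i t ∧ √(Yk κ x w i t) ≤ 3 / 2 ∧ w i t ≤ dd lam := by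
  intro i
  induction i using Nat.strong_induction_on with
  | _ i ih =>
  intro hi
  have q := g.q
  have hlm := q.lamp
  have hd := dd_pos lam
  have hNd := N_dd q
  have hN := q.N_one
  have hNS := N_S q
  have hin : ∀ t ∈ Ico (σ i) t1, t ∈ Ico 0 T := fun t ht =>
    ⟨(σnn h hi).trans ht.1, ht.2.trans_le hT⟩
  have hlow : ∀ t ∈ Ico (σ i) t1, Low lam L x w i t := by
    intro t ht
    refine low_of g (hin t ht) (fun j hj => ?_) (fun j hj => ?_)
    · have h3 := ih j hj (by omega) t ⟨(σmono h (by omega) hi).trans ht.1, ht.2⟩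
      exact (g.x_le (hin t ht) j).trans h3.2.1
    · exact (ih j hj (by omega) t ⟨(σmono h (by omega) hi).trans ht.1, ht.2⟩).2.2
  have hY : ∀ t ∈ Ico (σ i) t1, √(Yk κ x w i t) ≤ 3 / 2 := by
    intro t ht
    rcases i with _ | m
    · have h2 := g.sy.en t (hin t ht)
      calc √(Yk κ x w 0 t) ≤ √1 := Real.sqrt_le_sqrt h2
        _ = 1 := Real.sqrt_one
        _ ≤ _ := by norm_num
    · have e := Ldiv q m
      have hLm := q.Lp m
      set c : ℝ := 1 / 10 ^ 10 * L m with hc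
      have hc0 : 0 ≤ c := by positivity
      have hx : ∀ τ ∈ Ioo (σ (m + 1)) t,
          src L C x (m + 1) τ + N * loc L x w (m + 1) τ ≤ c := by
        intro τ hτ
        have hτ1 : τ ∈ Ico (σ (m + 1)) t1 := ⟨hτ.1.le, hτ.2.trans ht.2⟩
        have hl := (hlow τ hτ1).lc
        rw [e] at hl
        have h2 : N * loc L x w (m + 1) τ ≤ 1 / 10 ^ 20 * L m := by
          calc N * loc L x w (m + 1) τ ≤ N * (20 * dd lam * L m) := by gcongr
            _ = (20 * N * dd lam) * L m := by ring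
            _ ≤ (10 ^ 20 * N * dd lam) * L m := by gcongr; norm_num
            _ ≤ _ := by gcongr
        have h3 : src L C x (m + 1) τ ≤ 9 / 4 / 10 ^ 20 * L m := by
          have h0 : ¬ (m + 1 = 0) := Nat.succ_ne_zero m
          unfold src
          rw [if_neg h0, Nat.add_sub_cancel]
          have h4 := (ih m (by omega) (by omega) τ
            ⟨(σmono h (by omega) hi).trans hτ1.1, hτ1.2⟩).2.1
          have h5 := (g.x_le (hin τ hτ1) m).trans h4
          have h6 : x m τ ^ 2 ≤ (3 / 2) ^ 2 := by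
            rw [← sq_abs]; gcongr
          have h8 := q.Cp m
          have h9 := q.C_small m
          calc L m * C m * x m τ ^ 2 ≤ L m * (1 / 10 ^ 20) * (3 / 2) ^ 2 := by gcongr
            _ = _ := by ring
        rw [hc]
        linarith
      have hadd : ∀ τ ∈ Ioo (σ (m + 1)) t,
          addt lam N L x w (m + 1) τ ≤ 2 * c * (1 / 10 ^ 6) := by
        intro τ hτ
        have hτ1 : τ ∈ Ico (σ (m + 1)) t1 := ⟨hτ.1.le, hτ.2.trans ht.2⟩
        have hL := hlow τ hτ1
        have h0 : ¬ (m + 1 = 0) := Nat.succ_ne_zero m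
        unfold addt
        rw [if_neg h0, Nat.add_sub_cancel]
        have hz := hL.z h0
        rw [Nat.add_sub_cancel] at hz
        have hA := hL.A
        have hA0 := g.A_nonneg (hin τ hτ1) (m + 1)
        have hw0 := g.sy.w0 m τ (hin τ hτ1)
        calc N / Real.exp lam * (L m * At lam x w (m + 1) τ ^ 2 * (|x m τ| + w m τ) ^ 2)
            ≤ N * dd lam * (L m * (1501 / 1000) ^ 2 * (1501 / 1000) ^ 2) := by gcongr
          _ = ((1501 / 1000) ^ 2 * (1501 / 1000) ^ 2) * N * dd lam * L m := by ring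
          _ ≤ 10 ^ 20 * N * dd lam * L m := by gcongr; norm_num
          _ ≤ 1 / 10 ^ 20 * L m := by gcongr
          _ ≤ (2 / 10 ^ 16) * L m := by gcongr ?_ * _; norm_num
          _ = _ := by rw [hc]; ring
      set r : ℝ := 603 / 1000 * L m with hr
      have hr0 : 0 ≤ r := by positivity
      have hUL : ∀ τ ∈ Ioo (σ (m + 1)) t, Ut L x (m + 1) τ ≤ 10 ^ 6 * L (m + 1) := by
        intro τ hτ
        have hU := (hlow τ ⟨hτ.1.le, hτ.2.trans ht.2⟩).U
        rw [e] at hU
        have h2 := q.Lmono (show m ≤ m + 1 by omega)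
        linarith
      have hU : ∀ τ ∈ Ioo (σ (m + 1)) t, 10011 / 10000 * Ut L x (m + 1) τ
          + N * Uw L w (m + 1) τ - 9 / 10 * (L (m + 1) / lam) ≤ r := by
        intro τ hτ
        have hL := hlow τ ⟨hτ.1.le, hτ.2.trans ht.2⟩
        have h4 := hL.U
        have h2 := hL.Uw
        rw [e] at h4 h2 ⊢
        have h3 : N * Uw L w (m + 1) τ ≤ 1 / 10 ^ 20 * L m := by
          calc N * Uw L w (m + 1) τ ≤ N * (2 * dd lam * L m) := by gcongr
            _ = (2 * N * dd lam) * L m := by ring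
            _ ≤ (10 ^ 20 * N * dd lam) * L m := by gcongr; norm_num
            _ ≤ _ := by gcongr
        rw [hr]
        linarith
      have ht0 : 0 ≤ t - σ (m + 1) := by linarith [ht.1]
      have hel : (t - σ (m + 1)) * L m ≤ 6201 / 10000 := by
        have h3 := el' g h h1 hi
        have h2 : (t - σ (m + 1)) * L (m + 1) ≤ (t1 - σ (m + 1)) * L (m + 1) := by
          have := q.Lp (m + 1)
          gcongr; exact ht.2.le
        rw [q.L_succ m] at h3 h2
        have h4 : ((t - σ (m + 1)) * L m) * lam ≤ 6201 / 10000 * lam := by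
          calc ((t - σ (m + 1)) * L m) * lam = (t - σ (m + 1)) * (lam * L m) := by ring
            _ ≤ _ := h2.trans h3
        exact le_of_mul_le_mul_right h4 hlm
      have h2 := grow g m (α := σ (m + 1)) (t := t) (q := r) (c := c) (η := 1 / 10 ^ 6)
        (σnn h hi) ht.1 (ht.2.trans_le hT) hr0 hc0 (by positivity) hUL hU hx hadd
      rw [h.aY (m + 1) hi] at h2
      have h3 : r * (t - σ (m + 1)) ≤ 374 / 1000 := by
        have e : r * (t - σ (m + 1)) = 603 / 1000 * ((t - σ (m + 1)) * L m) := by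
          rw [hr]; ring
        rw [e]
        linarith
      have h4 : 2 * c * (t - σ (m + 1)) ≤ 1 / 10 ^ 6 := by
        have e : 2 * c * (t - σ (m + 1)) = 2 / 10 ^ 10 * ((t - σ (m + 1)) * L m) := by
          rw [hc]; ring
        rw [e]
        linarith
      have h5 := exp374 h3
      have h6 := Real.exp_pos (r * (t - σ (m + 1)))
      have h7 : 0 ≤ 2 * c * (t - σ (m + 1)) := by positivity
      calc √(Yk κ x w (m + 1) t)
          ≤ Real.exp (r * (t - σ (m + 1))) * (1 + 1 / 10 ^ 6 + 2 * c * (t - σ (m + 1))) := h2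
        _ ≤ 147 / 100 * (1 + 1 / 10 ^ 6 + 1 / 10 ^ 6) := by gcongr
        _ ≤ _ := by norm_num
  intro t ht
  refine ⟨hlow t ht, hY t ht, ?_⟩
  exact wbar g i (σnn h hi) ht.1 (ht.2.trans_le hT) hd.le
    (fun τ hτ => wfc_le g (hin τ ⟨hτ.1.le, hτ.2.trans ht.2⟩) (hlow τ ⟨hτ.1.le, hτ.2.trans ht.2⟩)
      (hY τ ⟨hτ.1.le, hτ.2.trans ht.2⟩)) (h.wi i hi)

end main

/-- A priori bounds (upper bounds of the active modes: trap `√Y ≤ 3/2`). -/
theorem t_UB : S_UB := by
  intro κ lam N L C ℓ B T x w f n σ t1 g h hT h1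
  have hu := UB g h hT h1
  exact ⟨⟨fun i hi t ht => (hu i hi t ht).1, fun i hi t ht => (hu i hi t ht).2.1,
    fun i hi t ht => (hu i hi t ht).2.2⟩, fun i hi => el' g h h1 hi⟩

end Pool.Agent.Y664.EP
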